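import Pool.Agent.H38.LR.S8.W23.DC.Defs

/-!
DC project (owner helper23): the error term of the linear sieve is well-factorable.
-/

namespace Pool.Agent.W586.DC

open Finset
open Pool.Agent.W23.DC

theorem prime_dvd_prod_mem {s : Finset ℕ} (hs : ∀ q ∈ s, q.Prime) {p : ℕ} (hp : p.Prime)
    (h : p ∣ ∏ q ∈ s, q) : p ∈ s := by
  obtain ⟨q, hq, hpq⟩ := (Prime.dvd_finsetProd_iff hp.prime _).1 h
  rwa [(Nat.prime_dvd_prime_iff_eq hp (hs q hq)).1 hpq]

theorem mem_EE {P : Finset ℕ} {t : ℕ → ℝ} {τ ζ : ℝ} {e : ℕ} :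
    e ∈ EE P t τ ζ ↔ (∃ s : Finset ℕ, (∀ q ∈ s, q ∈ P ∧ t q < ζ) ∧ ∏ q ∈ s, q = e) ∧
      WFac t τ e := by
  classical
  unfold EE
  simp only [mem_filter, mem_image, mem_powerset, subset_iff]

theorem one_mem_EE (P : Finset ℕ) (t : ℕ → ℝ) (τ ζ : ℝ) : 1 ∈ EE P t τ ζ := by
  rw [mem_EE]
  refine ⟨⟨∅, by simp, by simp⟩, ?_⟩
  intro a b ha hb _
  exact ⟨1, 1, by simp, by simp [sz, ha], by simp [sz, hb]⟩

theorem mul_mem_EE {P : Finset ℕ} {t : ℕ → ℝ} (hS : Siz P t) {τ ζ : ℝ} {p e : ℕ} (hp : p ∈ P)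
    (h1 : t p < ζ) (h2 : 2 * t p ≤ τ) (he : e ∈ EE P t (τ - t p) (t p)) :
    p * e ∈ EE P t τ ζ := by
  classical
  rw [mem_EE] at he ⊢
  obtain ⟨⟨s, hs, hse⟩, hw⟩ := he
  have hpr : p.Prime := hS.pr p hp
  have hsp : ∀ q ∈ s, q.Prime := fun q hq => hS.pr q (hs q hq).1
  have hps : p ∉ s := fun h => lt_irrefl _ (hs p h).2
  have hpe : ¬ p ∣ e := by
    rw [← hse]
    exact fun h => hps (prime_dvd_prod_mem hsp hpr h)
  have he0 : e ≠ 0 := by
    intro h
    exact hpe (h ▸ dvd_zero p)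
  have key : ∀ u : ℕ, u ∣ e → sz t (p * u) = t p + sz t u := by
    intro u hu
    have hu0 : u ≠ 0 := fun h => he0 (by rw [h, zero_dvd_iff] at hu; exact hu)
    have hpu : p ∉ u.primeFactors := fun h => hpe ((Nat.dvd_of_mem_primeFactors h).trans hu)
    unfold sz
    rw [Nat.primeFactors_mul hpr.ne_zero hu0, hpr.primeFactors, ← Finset.insert_eq,
      Finset.sum_insert hpu]
  refine ⟨⟨insert p s, ?_, ?_⟩, ?_⟩
  · intro q hq
    rcases mem_insert.1 hq with rfl | hq
    · exact ⟨hp, h1⟩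
    · exact ⟨(hs q hq).1, (hs q hq).2.trans h1⟩
  · rw [Finset.prod_insert hps, hse]
  · intro a b ha hb hab
    by_cases hc : t p ≤ a
    · obtain ⟨u, v, huv, hu, hv⟩ := hw (a - t p) b (by linarith) hb (by linarith)
      refine ⟨p * u, v, by rw [← huv]; ring, ?_, hv⟩
      rw [key u ⟨v, huv.symm⟩]
      linarith
    · have hc' : t p ≤ b := by
        push Not at hc
        linarith
      obtain ⟨u, v, huv, hu, hv⟩ := hw a (b - t p) ha (by linarith) (by linarith)
      refine ⟨u, p * v, by rw [← huv]; ring, hu, ?_⟩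
      rw [key v ⟨u, by rw [← huv]; ring⟩]
      linarith

theorem dvd_EE {P : Finset ℕ} {t : ℕ → ℝ} (hS : Siz P t) {τ ζ : ℝ} {p e : ℕ} (hp : p.Prime)
    (he : e ∈ EE P t τ ζ) (hpe : p ∣ e) : t p < ζ := by
  rw [mem_EE] at he
  obtain ⟨⟨s, hs, hse⟩, -⟩ := he
  rw [← hse] at hpe
  exact (hs p (prime_dvd_prod_mem (fun q hq => hS.pr q (hs q hq).1) hp hpe)).2

theorem key {P : Finset ℕ} {t : ℕ → ℝ} (hS : Siz P t) (r : ℕ → ℝ) {τ ζ : ℝ} (d : ℕ)
    (Q : Finset ℕ) (hQ : ∀ p ∈ Q, p ∈ P ∧ t p < ζ ∧ 2 * t p ≤ τ) :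
    |r d| + ∑ p ∈ Q, ∑ e ∈ EE P t (τ - t p) (t p), |r (d * p * e)| ≤
      ∑ e ∈ EE P t τ ζ, |r (d * e)| := by
  classical
  set U : Finset ℕ := Q.biUnion (fun p => (EE P t (τ - t p) (t p)).image (fun e => p * e)) with hU
  have hdisj : (Q : Set ℕ).PairwiseDisjoint
      (fun p => (EE P t (τ - t p) (t p)).image (fun e => p * e)) := by
    intro p hp p' hp' hne
    rw [Function.onFun, Finset.disjoint_left]
    intro x hx hx'
    obtain ⟨e, he, rfl⟩ := mem_image.1 hx
    obtain ⟨e', he', hee⟩ := mem_image.1 hx'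
    have hpr : p.Prime := hS.pr p (hQ p hp).1
    have hpr' : p'.Prime := hS.pr p' (hQ p' hp').1
    have h1 : t p < t p' := by
      have hd : p ∣ p' * e' := hee ▸ dvd_mul_right p e
      rcases hpr.dvd_mul.1 hd with h | h
      · exact absurd ((Nat.prime_dvd_prime_iff_eq hpr hpr').1 h) hne
      · exact dvd_EE hS hpr he' h
    have h2 : t p' < t p := by
      have hd : p' ∣ p * e := hee ▸ dvd_mul_right p' e'
      rcases hpr'.dvd_mul.1 hd with h | h
      · exact absurd ((Nat.prime_dvd_prime_iff_eq hpr' hpr).1 h).symm hne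
      · exact dvd_EE hS hpr' he h
    exact lt_asymm h1 h2
  have h1U : 1 ∉ U := by
    intro h
    rw [hU, mem_biUnion] at h
    obtain ⟨p, hp, h⟩ := h
    obtain ⟨e, -, he⟩ := mem_image.1 h
    exact (hS.pr p (hQ p hp).1).one_lt.ne' (Nat.eq_one_of_mul_eq_one_right he)
  have hsub : insert 1 U ⊆ EE P t τ ζ := by
    intro x hx
    rcases mem_insert.1 hx with rfl | hx
    · exact one_mem_EE P t τ ζ
    · rw [hU, mem_biUnion] at hx
      obtain ⟨p, hp, hx⟩ := hx
      obtain ⟨e, he, rfl⟩ := mem_image.1 hx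
      exact mul_mem_EE hS (hQ p hp).1 (hQ p hp).2.1 (hQ p hp).2.2 he
  calc |r d| + ∑ p ∈ Q, ∑ e ∈ EE P t (τ - t p) (t p), |r (d * p * e)|
      = ∑ x ∈ insert 1 U, |r (d * x)| := by
        rw [Finset.sum_insert h1U, mul_one, hU, Finset.sum_biUnion hdisj]
        congr 1
        refine Finset.sum_congr rfl fun p hp => ?_
        rw [Finset.sum_image]
        · exact Finset.sum_congr rfl fun e _ => by rw [mul_assoc]
        · intro x _ y _ hxy
          exact Nat.eq_of_mul_eq_mul_left (hS.pr p (hQ p hp).1).pos hxy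
    _ ≤ _ := Finset.sum_le_sum_of_subset_of_nonneg hsub fun _ _ _ => abs_nonneg _

theorem ER : St_ER := by
  classical
  intro P t hS r k
  induction k with
  | zero =>
    intro b τ ζ d hτ hb
    cases b with
    | true =>
      have h := key hS r (τ := τ) (ζ := ζ) d ∅ (by simp)
      simpa [LL] using h
    | false =>
      simp only [LL, abs_zero]
      exact Finset.sum_nonneg fun _ _ => abs_nonneg _
  | succ k ih =>
    intro b τ ζ d hτ hb
    cases b with
    | true =>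
      simp only [LL]
      set Q := P.filter (fun p => t p < ζ ∧ 3 * t p < τ) with hQ
      have hQ' : ∀ p ∈ Q, p ∈ P ∧ t p < ζ ∧ 2 * t p ≤ τ := by
        intro p hp
        rw [hQ, mem_filter] at hp
        have := hS.pos p hp.1
        exact ⟨hp.1, hp.2.1, by linarith [hp.2.2]⟩
      refine le_trans ?_ (key hS r d Q hQ')
      refine (abs_sub _ _).trans ?_
      gcongr
      refine (Finset.abs_sum_le_sum_abs _ _).trans (Finset.sum_le_sum fun p hp => ?_)
      rw [hQ, mem_filter] at hp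
      have := hS.pos p hp.1
      exact ih false (τ - t p) (t p) (d * p) (by linarith [hp.2.2]) fun _ => by linarith [hp.2.2]
    | false =>
      simp only [LL]
      set Q := P.filter (fun p => t p < ζ) with hQ
      have hb' := hb rfl
      have hQ' : ∀ p ∈ Q, p ∈ P ∧ t p < ζ ∧ 2 * t p ≤ τ := by
        intro p hp
        rw [hQ, mem_filter] at hp
        exact ⟨hp.1, hp.2, by linarith [hp.2]⟩
      refine le_trans ?_ (key hS r d Q hQ')
      refine (abs_sub _ _).trans ?_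
      gcongr
      refine (Finset.abs_sum_le_sum_abs _ _).trans (Finset.sum_le_sum fun p hp => ?_)
      rw [hQ, mem_filter] at hp
      have := hS.pos p hp.1
      exact ih true (τ - t p) (t p) (d * p) (by linarith [hp.2]) (by simp)

end Pool.Agent.W586.DC
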